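import Pool.Agent.H447R3.NcDefs
import Pool.Agent.H447R3.SpDefs

/-!
# Numerical lowering correspondences: definitions
-/

open CategoryTheory AlgebraicGeometry

universe u v

namespace Pool.Agent.R911.Num

open Pool.Agent.H914 Pool.Agent.H447 VarClass Obj WeilCohomology

variable {k : Type u} [Field k] {𝒱 : VarClass k} {ops : CycleOps 𝒱}

/-- The composition `b ∘ a` of correspondences on `X`. -/
noncomputable def comp (ops : CycleOps 𝒱) (X : 𝒱.Obj) (b a : (X.prod X).Cycles) :
    (X.prod X).Cycles :=
  compCyc ops a b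

/-- The Lefschetz correspondence `ℓ = Δ_* D` on `X × X`, which induces the cup product with the
class of `D`. -/
noncomputable def lefCyc (ops : CycleOps 𝒱) (X : 𝒱.Obj) (D : X.Cycles) : (X.prod X).Cycles :=
  ops.push (diag X) D

/-- The cycle `w` of codimension `n - 1` on `X × X`, `n = dim X`, is a numerical lowering
correspondence for `D`: the relation `[[ℓ, w], ℓ] = 2 ℓ` holds up to numerical equivalence, in the
form `2 ℓ ∘ w ∘ ℓ ≡ ℓ ∘ ℓ ∘ w + w ∘ ℓ ∘ ℓ + 2 ℓ`, where `ℓ` is the Lefschetz correspondence. -/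
def NumLowering (ops : CycleOps 𝒱) (X : 𝒱.Obj) (D : X.Cycles) (w : (X.prod X).Cycles) : Prop :=
  (X.prod X).IsCyc (X.dim - 1) w ∧
    NumEquiv ops (X.prod X) (X.dim + 1)
      ((2 : ℚ) • comp ops X (lefCyc ops X D) (comp ops X w (lefCyc ops X D)))
      (comp ops X (lefCyc ops X D) (comp ops X (lefCyc ops X D) w) +
        comp ops X w (comp ops X (lefCyc ops X D) (lefCyc ops X D)) +
          (2 : ℚ) • lefCyc ops X D)

/-- Twice the trace of the composition of two endomorphisms. -/
noncomputable def twiceTrace {K : Type*} [Field K] {V : Type*} [AddCommGroup V] [Module K V]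
    (a b : V →ₗ[K] V) : K :=
  2 * LinearMap.trace K V (a ∘ₗ b)

/-- Twice the trace on `H(X)` of the composition of the cup product with the class of `D` and the
operator induced by the correspondence `w`. -/
noncomputable def lefTrace (W : WeilCohomology.{u, v} ops) (X : 𝒱.Obj) (D : X.Cycles)
    (w : (X.prod X).Cycles) : W.K :=
  twiceTrace (LinearMap.mulLeft W.K (W.cl X D)) (W.corr (W.cl (X.prod X) w))

/-- The integer `∑ i, (i - n) ^ 2 b_i`, where `n = dim X` and `b_i` is the `i`-th Betti
number. -/
noncomputable def weightSum (W : WeilCohomology.{u, v} ops) (X : 𝒱.Obj) : ℤ :=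
  ∑ i ∈ Finset.range (2 * X.dim + 1), ((i : ℤ) - X.dim) ^ 2 * (W.betti X i : ℤ)

end Pool.Agent.R911.Num
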