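import Mathlib

/-!
# Two lemmas on commutators in a ring
-/

open Polynomial Finset

namespace Pool.Agent.R911.Num

section Nil

variable {Q : Type*} [Ring Q] {A B C : Q}

/-- Commutation of a power of `A` with `B`. -/
lemma pow_mul_comm' (hC : C = A * B - B * A) (hAC : A * C = C * A) (r : ℕ) :
    A ^ (r + 1) * B = B * A ^ (r + 1) + ((r + 1 : ℕ) : Q) * (C * A ^ r) := by
  have hAB : A * B = B * A + C := by rw [hC]; abel
  have hpow : ∀ k, A ^ k * C = C * A ^ k := by
    intro k
    exact (Commute.pow_left (show Commute A C from hAC) k).eq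
  induction r with
  | zero => simp [hAB]
  | succ r ih =>
    calc A ^ (r + 1 + 1) * B = A ^ (r + 1) * (A * B) := by rw [pow_succ A (r + 1), mul_assoc]
      _ = A ^ (r + 1) * B * A + A ^ (r + 1) * C := by rw [hAB, mul_add, mul_assoc]
      _ = (B * A ^ (r + 1) + ((r + 1 : ℕ) : Q) * (C * A ^ r)) * A + C * A ^ (r + 1) := by
          rw [ih, hpow]
      _ = B * A ^ (r + 1 + 1) + (((r + 1 : ℕ) : Q) * (C * A ^ (r + 1)) + C * A ^ (r + 1)) := by
          rw [add_mul, mul_assoc B, ← pow_succ, mul_assoc, mul_assoc C, ← pow_succ, add_assoc]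
      _ = _ := by
          congr 1
          push_cast
          rw [add_mul ((r : Q) + 1) 1, one_mul]

/-- If `A` is nilpotent and the commutator `C` of `A` and `B` is nilpotent and commutes with `A`,
then `A B` is nilpotent. -/
theorem isNilpotent_mul (hC : C = A * B - B * A) (hAC : A * C = C * A) (hA : IsNilpotent A)
    (hCn : IsNilpotent C) : IsNilpotent (A * B) := by
  obtain ⟨N, hN⟩ := hA
  obtain ⟨M, hM⟩ := hCn
  have hpow : ∀ k, A ^ k * C = C * A ^ k := fun k =>
    (Commute.pow_left (show Commute A C from hAC) k).eq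
  have hker : ∀ r : ℕ, ∀ x : Q, A ^ r * x = 0 → A ^ r * (A * B * x) = 0 := by
    intro r x hx
    have h1 : A ^ r * (A * B * x) = A ^ (r + 1) * B * x := by
      rw [pow_succ]; simp only [mul_assoc]
    rw [h1, pow_mul_comm' hC hAC, add_mul, mul_assoc B, pow_succ', mul_assoc A, hx, mul_zero,
      mul_zero, zero_add, mul_assoc, mul_assoc C, hx, mul_zero, mul_zero]
  have hker' : ∀ r : ℕ, ∀ x : Q, A ^ r * x = 0 → ∀ k, A ^ r * ((A * B) ^ k * x) = 0 := by
    intro r x hx k
    induction k with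
    | zero => simpa using hx
    | succ k ih =>
      rw [pow_succ', mul_assoc]
      exact hker r _ ih
  have hstep : ∀ r : ℕ, ∀ x : Q, A ^ (r + 1) * x = 0 → ∀ k,
      A ^ r * ((A * B) ^ k * x) = ((r + 1 : ℕ) : Q) ^ k * (C ^ k * (A ^ r * x)) := by
    intro r x hx k
    induction k with
    | zero => simp
    | succ k ih =>
      have h1 : A ^ r * ((A * B) ^ (k + 1) * x) = A ^ (r + 1) * B * ((A * B) ^ k * x) := by
        rw [pow_succ', pow_succ A r]; simp only [mul_assoc]
      rw [h1, pow_mul_comm' hC hAC, add_mul, mul_assoc B, hker' (r + 1) x hx k, mul_zero, zero_add,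
        mul_assoc, mul_assoc C, ih, pow_succ', pow_succ' C]
      have h2 : Commute C (((r + 1 : ℕ) : Q) ^ k) := (Nat.commute_cast C (r + 1)).pow_right k
      rw [← mul_assoc C (((r + 1 : ℕ) : Q) ^ k), h2.eq]
      simp only [mul_assoc]
  have hdown : ∀ r : ℕ, ∀ x : Q, A ^ r * x = 0 → ((A * B) ^ (M * r)) * x = 0 := by
    intro r
    induction r with
    | zero => intro x hx; simpa using hx
    | succ r ih =>
      intro x hx
      have h1 := hstep r x hx M
      rw [hM, zero_mul, mul_zero] at h1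
      have h2 := ih _ h1
      rw [← mul_assoc, ← pow_add] at h2
      rwa [show M * (r + 1) = M * r + M by ring]
  refine ⟨M * N, ?_⟩
  have := hdown N 1 (by rw [hN, zero_mul])
  rwa [mul_one] at this

end Nil

section Int

variable {K : Type*} [Field K]

/-- A product of linear factors with integral roots. -/
def IntSplit (P : K[X]) : Prop := ∃ s : Multiset ℤ, P = (s.map fun m : ℤ => X - C (m : K)).prod

lemma IntSplit.one : IntSplit (1 : K[X]) := ⟨0, by simp⟩

lemma IntSplit.mul {P P' : K[X]} (h : IntSplit P) (h' : IntSplit P') : IntSplit (P * P') := by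
  obtain ⟨s, hs⟩ := h
  obtain ⟨s', hs'⟩ := h'
  exact ⟨s + s', by rw [hs, hs', Multiset.map_add, Multiset.prod_add]⟩

lemma IntSplit.linear (m : ℤ) : IntSplit (X - C (m : K)) :=
  ⟨{m}, by rw [Multiset.map_singleton, Multiset.prod_singleton]⟩

lemma IntSplit.prod_range (N : ℕ) : IntSplit (∏ j ∈ range N, (X - C (((j : ℤ) : K)))) := by
  induction N with
  | zero => simpa using IntSplit.one
  | succ N ih => rw [Finset.prod_range_succ]; exact ih.mul (IntSplit.linear _)

lemma IntSplit.shift {P : K[X]} (h : IntSplit P) (a : ℤ) : IntSplit (P.comp (X + C (a : K))) := by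
  obtain ⟨s, hs⟩ := h
  induction s using Multiset.induction_on generalizing P with
  | empty =>
    rw [hs, Multiset.map_zero, Multiset.prod_zero]
    exact ⟨0, by rw [one_comp, Multiset.map_zero, Multiset.prod_zero]⟩
  | cons m s ih =>
    rw [hs, Multiset.map_cons, Multiset.prod_cons, mul_comp]
    refine IntSplit.mul ?_ (ih rfl)
    have : (X - C (m : K)).comp (X + C (a : K)) = X - C (((m - a : ℤ)) : K) := by
      rw [sub_comp, X_comp, C_comp, Int.cast_sub, C_sub]
      ring
    rw [this]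
    exact IntSplit.linear _

variable [CharZero K] {Q : Type*} [Ring Q] [Algebra K Q] {L w T : Q}

lemma T_mul_L (hTL : T * L - L * T = 2 * L) : T * L = L * (T + 2) := by
  have : T * L = L * T + 2 * L := by rw [← hTL]; abel
  rw [this, mul_add, two_mul, mul_two]

lemma L_mul_T_sub (hTL : T * L - L * T = 2 * L) (k : ℕ) :
    L * (T - (k : Q)) = (T - ((k + 2 : ℕ) : Q)) * L := by
  rw [mul_sub, sub_mul, T_mul_L hTL, Nat.cast_add, add_mul, (Nat.cast_commute k L).eq, mul_add]
  have : ((2 : ℕ) : Q) * L = L * 2 := by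
    push_cast
    rw [two_mul, mul_two]
  rw [this]
  abel

omit [CharZero K] in
lemma aeval_L (hTL : T * L - L * T = 2 * L) (P : K[X]) :
    aeval T P * L = L * aeval T (P.comp (X + C ((2 : ℤ) : K))) := by
  have h1 := T_mul_L hTL
  have h2 : aeval T (X + C ((2 : ℤ) : K)) = T + 2 := by
    rw [map_add, aeval_X, aeval_C]
    push_cast
    rw [map_ofNat]
  rw [aeval_comp, h2]
  induction P using Polynomial.induction_on' with
  | add p q hp hq => rw [map_add, map_add, add_mul, mul_add, hp, hq]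
  | monomial k c =>
    rw [aeval_monomial, aeval_monomial, mul_assoc]
    have h3 : T ^ k * L = L * (T + 2) ^ k := by
      induction k with
      | zero => simp
      | succ k ih => rw [pow_succ', mul_assoc, ih, ← mul_assoc, h1, mul_assoc, ← pow_succ']
    rw [h3, ← mul_assoc, Algebra.commutes, mul_assoc]

lemma L_pow_w (hT : T = L * w - w * L) (hTL : T * L - L * T = 2 * L) (k : ℕ) :
    L ^ (k + 1) * w - w * L ^ (k + 1) = ((k + 1 : ℕ) : Q) * ((T - (k : Q)) * L ^ k) := by
  have hLw : L * w = T + w * L := by rw [hT]; abel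
  induction k with
  | zero => simp [hT]
  | succ k ih =>
    have e1 : L ^ (k + 1 + 1) * w - w * L ^ (k + 1 + 1) =
        L * (L ^ (k + 1) * w - w * L ^ (k + 1)) + T * L ^ (k + 1) := by
      rw [mul_sub, ← mul_assoc, ← mul_assoc, hLw, pow_succ' L (k + 1)]
      rw [add_mul]
      simp only [mul_assoc]
      abel
    rw [e1, ih]
    have e2 : L * (((k + 1 : ℕ) : Q) * ((T - (k : Q)) * L ^ k)) =
        ((k + 1 : ℕ) : Q) * ((T - ((k + 2 : ℕ) : Q)) * L ^ (k + 1)) := by
      rw [← mul_assoc, (Nat.cast_commute (k + 1) L).symm.eq, mul_assoc, ← mul_assoc L,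
        L_mul_T_sub hTL, mul_assoc _ L, ← pow_succ']
    rw [e2]
    have e3 : ((k + 1 + 1 : ℕ) : Q) * ((T - ((k + 1 : ℕ) : Q)) * L ^ (k + 1)) =
        (((k + 1 + 1 : ℕ) : Q) * (T - ((k + 1 : ℕ) : Q))) * L ^ (k + 1) := by rw [mul_assoc]
    have e4 : ((k + 1 : ℕ) : Q) * ((T - ((k + 2 : ℕ) : Q)) * L ^ (k + 1)) + T * L ^ (k + 1) =
        (((k + 1 : ℕ) : Q) * (T - ((k + 2 : ℕ) : Q)) + T) * L ^ (k + 1) := by
      rw [add_mul, mul_assoc]
    rw [e3, e4]
    congr 1
    rw [mul_sub, mul_sub, ← Nat.cast_mul, ← Nat.cast_mul,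
      show (k + 1 + 1) * (k + 1) = (k + 1) * (k + 2) by ring, Nat.cast_add (k + 1) 1,
      add_mul ((k + 1 : ℕ) : Q) ((1 : ℕ) : Q) T, Nat.cast_one, one_mul]
    abel

/-- If `T = [L, w]`, `[T, L] = 2 L` and `L` is nilpotent, then `T` is a root of a polynomial which
is a product of linear factors with integral roots. -/
theorem exists_intSplit (hT : T = L * w - w * L) (hTL : T * L - L * T = 2 * L)
    (hL : IsNilpotent L) : ∃ P : K[X], IntSplit P ∧ aeval T P = 0 := by
  obtain ⟨N, hN⟩ := hL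
  -- the kernel of `L`
  have hZ : ∀ k : ℕ, ∀ u : Q, L * u = 0 → ∃ v, aeval T (∏ j ∈ range k,
      (X - C (((j : ℤ) : K)))) * u = L ^ k * v ∧ L * (L ^ k * v) = 0 := by
    intro k
    induction k with
    | zero => intro u hu; exact ⟨u, by simp, by simpa using hu⟩
    | succ k ih =>
      intro u hu
      obtain ⟨v, hv, hLv⟩ := ih u hu
      have h0 : L ^ (k + 1) * v = 0 := by rw [pow_succ', mul_assoc, hLv]
      have e1 : aeval T (∏ j ∈ range (k + 1), (X - C (((j : ℤ) : K)))) * u =
          (T - (k : Q)) * (L ^ k * v) := by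
        rw [Finset.prod_range_succ, mul_comm, map_mul, mul_assoc, hv]
        congr 1
        rw [map_sub, aeval_X, aeval_C, Int.cast_natCast, map_natCast]
      have e2 : L ^ (k + 1) * (w * v) = ((k + 1 : ℕ) : Q) * ((T - (k : Q)) * (L ^ k * v)) := by
        have e2 : (L ^ (k + 1) * w - w * L ^ (k + 1)) * v =
            ((k + 1 : ℕ) : Q) * ((T - (k : Q)) * L ^ k) * v := by rw [L_pow_w hT hTL k]
        rw [sub_mul, mul_assoc, mul_assoc w, h0, mul_zero, sub_zero, mul_assoc, mul_assoc] at e2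
        exact e2
      have hk : ((k + 1 : ℕ) : K) ≠ 0 := Nat.cast_ne_zero.2 (Nat.succ_ne_zero k)
      have e3 : (T - (k : Q)) * (L ^ k * v) = L ^ (k + 1) * ((((k + 1 : ℕ) : K)⁻¹) • (w * v)) := by
        rw [mul_smul_comm, e2]
        have e4 : ((k + 1 : ℕ) : Q) * ((T - (k : Q)) * (L ^ k * v)) =
            ((k + 1 : ℕ) : K) • ((T - (k : Q)) * (L ^ k * v)) := by
          rw [Algebra.smul_def, map_natCast]
        rw [e4, smul_smul, inv_mul_cancel₀ hk, one_smul]
      refine ⟨_, by rw [e1, e3], ?_⟩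
      rw [← e3, ← mul_assoc, L_mul_T_sub hTL, mul_assoc, hLv, mul_zero]
  have hZ0 : ∀ u : Q, L * u = 0 → aeval T (∏ j ∈ range N, (X - C (((j : ℤ) : K)))) * u = 0 := by
    intro u hu
    obtain ⟨v, hv, -⟩ := hZ N u hu
    rw [hv, hN, zero_mul]
  have hP : ∀ m : ℕ, ∃ P : K[X], IntSplit P ∧ ∀ v : Q, L ^ m * v = 0 → aeval T P * v = 0 := by
    intro m
    induction m with
    | zero => exact ⟨1, IntSplit.one, fun v hv => by simpa using hv⟩
    | succ m ih =>
      obtain ⟨P, hPs, hP⟩ := ih
      refine ⟨(∏ j ∈ range N, (X - C (((j : ℤ) : K)))) * P.comp (X + C ((2 : ℤ) : K)),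
        (IntSplit.prod_range N).mul (hPs.shift 2), fun v hv => ?_⟩
      rw [map_mul, mul_assoc]
      apply hZ0
      rw [← mul_assoc, ← aeval_L hTL, mul_assoc]
      apply hP
      rw [← mul_assoc, ← pow_succ, hv]
  obtain ⟨P, hPs, hP⟩ := hP N
  refine ⟨P, hPs, ?_⟩
  have := hP 1 (by rw [hN, zero_mul])
  rwa [mul_one] at this

end Int

end Pool.Agent.R911.Num
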