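import Pool.Agent.H447R3.SpA
import Pool.Agent.R911.Num.Ring

/-!
# The square of the difference of two commuting operators with rational spectrum
-/

open Polynomial Finset TensorProduct

namespace Pool.Agent.R911.Num

open Pool.Agent.H914 Pool.Agent.H447

variable {K : Type*} [Field K] [CharZero K] {V : Type*} [AddCommGroup V] [Module K V]
  [Module.Finite K V]

omit [CharZero K] [Module.Finite K V] in
lemma eigen_root {T : Module.End K V} {Q : K[X]} (hQ : IntSplit Q) (hQT : aeval T Q = 0) {ν : K}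
    {N : ℕ} {x : V} (hx : x ≠ 0) (hN : ((T - algebraMap K (Module.End K V) ν) ^ N) x = 0) :
    ∃ m : ℤ, ν = (m : K) := by
  classical
  have hex : ∃ k, ((T - algebraMap K (Module.End K V) ν) ^ k) x = 0 := ⟨N, hN⟩
  set k := Nat.find hex with hk
  have hk0 : ((T - algebraMap K (Module.End K V) ν) ^ k) x = 0 := Nat.find_spec hex
  have hk1 : k ≠ 0 := by
    intro h0
    rw [h0, pow_zero, Module.End.one_apply] at hk0
    exact hx hk0
  obtain ⟨l, hl⟩ := Nat.exists_eq_succ_of_ne_zero hk1
  have hne : ((T - algebraMap K (Module.End K V) ν) ^ l) x ≠ 0 :=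
    Nat.find_min hex (by rw [← hk]; omega)
  set y := ((T - algebraMap K (Module.End K V) ν) ^ l) x with hy
  have hTy : T y = ν • y := by
    have h1 : (T - algebraMap K (Module.End K V) ν) y = 0 := by
      rw [hy, ← Module.End.mul_apply, ← pow_succ', ← Nat.succ_eq_add_one, ← hl]
      exact hk0
    rw [LinearMap.sub_apply, Module.algebraMap_end_apply, sub_eq_zero] at h1
    exact h1
  have hQy : ∀ P : K[X], aeval T P y = P.eval ν • y := by
    intro P
    induction P using Polynomial.induction_on' with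
    | add p q hp hq => rw [map_add, LinearMap.add_apply, hp, hq, eval_add, add_smul]
    | monomial i c =>
      have h2 : ∀ i : ℕ, (T ^ i) y = ν ^ i • y := by
        intro i
        induction i with
        | zero => simp
        | succ i ih => rw [pow_succ', Module.End.mul_apply, ih, map_smul, hTy, smul_smul, pow_succ]
      rw [aeval_monomial, Module.End.mul_apply, h2, Module.algebraMap_end_apply, smul_smul,
        eval_monomial]
  have h3 := hQy Q
  rw [hQT, LinearMap.zero_apply] at h3
  have h4 : Q.eval ν = 0 := (smul_eq_zero.1 h3.symm).resolve_right hne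
  obtain ⟨s, hs⟩ := hQ
  rw [hs, eval_multiset_prod, Multiset.map_map, Multiset.prod_eq_zero_iff, Multiset.mem_map] at h4
  obtain ⟨m, -, hm⟩ := h4
  refine ⟨m, ?_⟩
  simp only [Function.comp_apply, eval_sub, eval_X, eval_C] at hm
  exact sub_eq_zero.1 hm

/-- Over an algebraically closed field. -/
theorem sq_closed [IsAlgClosed K] {P : ℕ → Module.End K V} {m : ℕ} (hP : ProjSys P m)
    (lam : ℕ → ℤ) {T H : Module.End K V} (hT : ∀ i, Commute T (P i))
    (hH : H = ∑ i ∈ range m, (lam i : K) • P i) {Q : K[X]} (hQ : IntSplit Q)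
    (hQT : aeval T Q = 0) :
    ∃ q : ℤ, 0 ≤ q ∧ LinearMap.trace K V ((T - H) * (T - H)) = q ∧
      (q = 0 → IsNilpotent (T - H)) := by
  obtain ⟨s, E, N, hEp, hE1, hEE, hEN⟩ := exists_spectral T
  have hTE : ∀ ν, Commute T (E ν) := by
    intro ν
    obtain ⟨p, hp⟩ := hEp ν
    rw [hp]; exact comm_aeval (Commute.refl T) p
  have hPE : ∀ i ν, Commute (P i) (E ν) := by
    intro i ν
    obtain ⟨p, hp⟩ := hEp ν
    rw [hp]; exact comm_aeval (hT i).symm p
  set r : K → ℕ → ℕ := fun ν i => Module.finrank K (LinearMap.range (P i * E ν)) with hr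
  have hidem : ∀ ν ∈ s, ∀ i, P i * E ν * (P i * E ν) = P i * E ν := by
    intro ν hν i
    calc P i * E ν * (P i * E ν) = P i * (E ν * P i) * E ν := by simp only [mul_assoc]
      _ = (P i * P i) * (E ν * E ν) := by rw [← (hPE i ν).eq]; simp only [mul_assoc]
      _ = P i * E ν := by rw [hP.idem, hEE ν hν]
  have htr : ∀ ν ∈ s, ∀ i, LinearMap.trace K V (P i * E ν) = (r ν i : K) := fun ν hν i =>
    trace_idem (hidem ν hν i)
  have hHP : ∀ i ∈ range m, H * P i = (lam i : K) • P i := by
    intro i hi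
    rw [hH, Finset.sum_mul, Finset.sum_eq_single i]
    · rw [smul_mul_assoc, hP.idem]
    · intro j _ hj
      rw [smul_mul_assoc, hP.orth j i hj, smul_zero]
    · intro h; exact absurd hi h
  have hcP : ∀ i ∈ range m, (T - H) * P i = (T - algebraMap K (Module.End K V) (lam i)) * P i := by
    intro i hi
    rw [sub_mul, hHP i hi, sub_mul, ← Algebra.smul_def]
  have hB : ∀ ν ∈ s, ∀ i ∈ range m, LinearMap.trace K V ((T - H) * (T - H) * (P i * E ν)) =
      (ν - lam i) ^ 2 * (r ν i : K) := by
    intro ν hν i hi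
    set a : Module.End K V := algebraMap K (Module.End K V) (lam i) with ha
    have hca : ∀ x : Module.End K V, Commute a x := fun x => Algebra.commutes _ x
    have hcP' : (T - a) * P i = P i * (T - a) :=
      (((hT i).sub_left (hca (P i))).eq)
    have e1 : (T - H) * (T - H) * (P i * E ν) = P i * (T - a) * ((T - a) * E ν) := by
      calc (T - H) * (T - H) * (P i * E ν) = (T - H) * ((T - H) * P i) * E ν := by
            simp only [mul_assoc]
        _ = (T - H) * (P i * (T - a)) * E ν := by rw [hcP i hi, hcP']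
        _ = ((T - H) * P i) * (T - a) * E ν := by simp only [mul_assoc]
        _ = P i * (T - a) * ((T - a) * E ν) := by rw [hcP i hi, hcP']; simp only [mul_assoc]
    have hS : Commute (P i * (T - a)) T :=
      (hT i).symm.mul_left ((Commute.refl T).sub_left (hca T))
    have hS' : Commute (P i * (T - a)) (E ν) :=
      (hPE i ν).mul_left ((hTE ν).sub_left (hca (E ν)))
    have e2 : ∀ S : Module.End K V, Commute S T → Commute S (E ν) →
        LinearMap.trace K V (S * ((T - a) * E ν)) = (ν - lam i) * LinearMap.trace K V (S * E ν) := by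
      intro S h3 h4
      rw [sub_mul, mul_sub, map_sub, trace_spectral h3 h4 (hTE ν) (hEN ν hν), ha,
        ← Algebra.smul_def, mul_smul_comm, map_smul, smul_eq_mul, sub_mul]
    rw [e1, e2 _ hS hS', mul_assoc (P i), e2 _ (hT i).symm (hPE i ν), htr ν hν i]
    ring
  have hdecomp : ∀ x : Module.End K V, x = ∑ ν ∈ s, ∑ i ∈ range m, x * (P i * E ν) := by
    intro x
    conv_lhs => rw [← mul_one x, ← hE1, Finset.mul_sum]
    apply Finset.sum_congr rfl
    intro ν _
    conv_lhs => rw [← one_mul (E ν), ← hP.sum, Finset.sum_mul, Finset.mul_sum]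
  have hC : LinearMap.trace K V ((T - H) * (T - H)) =
      ∑ ν ∈ s, ∑ i ∈ range m, (ν - lam i) ^ 2 * (r ν i : K) := by
    conv_lhs => rw [hdecomp ((T - H) * (T - H)), map_sum]
    apply Finset.sum_congr rfl
    intro ν hν
    rw [map_sum]
    exact Finset.sum_congr rfl (fun i hi => (hB ν hν i hi))
  -- rationality
  have hint : ∀ ν : K, ∃ q : ℤ, ν ∈ s → E ν ≠ 0 → ν = (q : K) := by
    intro ν
    by_cases hν : ν ∈ s ∧ E ν ≠ 0
    · obtain ⟨hν, h0⟩ := hν
      obtain ⟨y, hy⟩ : ∃ y, E ν y ≠ 0 := by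
        by_contra hcon
        push Not at hcon
        exact h0 (LinearMap.ext hcon)
      obtain ⟨l, hl⟩ := eigen_root hQ hQT (N := N) hy (by
        rw [← Module.End.mul_apply, hEN ν hν, LinearMap.zero_apply])
      exact ⟨l, fun _ _ => hl⟩
    · exact ⟨0, fun h1 h2 => absurd ⟨h1, h2⟩ hν⟩
  choose q hq using hint
  have hr0 : ∀ ν i, r ν i ≠ 0 → E ν ≠ 0 := by
    intro ν i h1 h2
    apply h1
    rw [hr]
    beta_reduce
    rw [h2, mul_zero, LinearMap.range_zero, finrank_bot]
  have hterm : ∀ ν ∈ s, ∀ i ∈ range m, (ν - lam i) ^ 2 * (r ν i : K) =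
      (((q ν - lam i) ^ 2 * (r ν i : ℤ) : ℤ) : K) := by
    intro ν hν i hi
    by_cases h0 : r ν i = 0
    · rw [h0]; simp
    · push_cast
      rw [← hq ν hν (hr0 ν i h0)]
  have hnn : ∀ ν i, 0 ≤ (q ν - lam i) ^ 2 * (r ν i : ℤ) := fun ν i => by positivity
  refine ⟨∑ ν ∈ s, ∑ i ∈ range m, (q ν - lam i) ^ 2 * (r ν i : ℤ),
    Finset.sum_nonneg (fun ν _ => Finset.sum_nonneg (fun i _ => hnn ν i)), ?_, ?_⟩
  · rw [hC, Int.cast_sum]
    apply Finset.sum_congr rfl
    intro ν hν
    rw [Int.cast_sum]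
    exact Finset.sum_congr rfl (fun i hi => hterm ν hν i hi)
  intro hD
  have hE : ∀ ν ∈ s, ∀ i ∈ range m, r ν i = 0 ∨ ν = lam i := by
    intro ν hν i hi
    by_cases h0 : r ν i = 0
    · exact Or.inl h0
    · right
      have h3 := (Finset.sum_eq_zero_iff_of_nonneg (fun ν _ => Finset.sum_nonneg
        (fun i _ => hnn ν i))).1 hD ν hν
      have h4 := (Finset.sum_eq_zero_iff_of_nonneg (fun i _ => hnn ν i)).1 h3 i hi
      have h5 : (q ν - lam i) ^ 2 = 0 := (mul_eq_zero.1 h4).resolve_right (by exact_mod_cast h0)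
      have h6 : q ν = lam i := by
        have := pow_eq_zero_iff (two_ne_zero) |>.1 h5
        linarith
      rw [hq ν hν (hr0 ν i h0), h6]
  refine ⟨N, ?_⟩
  rw [hdecomp ((T - H) ^ N)]
  apply Finset.sum_eq_zero
  intro ν hν
  apply Finset.sum_eq_zero
  intro i hi
  rcases hE ν hν i hi with h0 | h0
  · have : P i * E ν = 0 := by
      apply eq_zero_of_idem_of_trace_eq_zero (hidem ν hν i)
      rw [htr ν hν i, h0, Nat.cast_zero]
    rw [this, mul_zero]
  · have hpow : ∀ k : ℕ, (T - H) ^ k * P i = (T - algebraMap K (Module.End K V) ν) ^ k * P i := by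
      intro k
      induction k with
      | zero => simp
      | succ k ih =>
        have hc : (T - algebraMap K (Module.End K V) ν) * P i =
            P i * (T - algebraMap K (Module.End K V) ν) :=
          ((hT i).sub_left (Algebra.commutes ν (P i))).eq
        rw [pow_succ, mul_assoc, hcP i hi, ← h0, hc, ← mul_assoc, ih, pow_succ, mul_assoc,
          mul_assoc, hc]
    rw [← mul_assoc, hpow, mul_assoc, (hPE i ν).eq, ← mul_assoc, hEN ν hν, zero_mul]

omit [CharZero K] in
lemma IntSplit.map {Q : K[X]} (hQ : IntSplit Q) (Kb : Type*) [Field Kb] [Algebra K Kb] :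
    IntSplit (Q.map (algebraMap K Kb)) := by
  obtain ⟨s, hs⟩ := hQ
  refine ⟨s, ?_⟩
  rw [hs, Polynomial.map_multiset_prod, Multiset.map_map]
  congr 1
  apply Multiset.map_congr rfl
  intro m _
  simp

/-- The general case. -/
theorem sq_trace {P : ℕ → Module.End K V} {m : ℕ} (hP : ProjSys P m)
    (lam : ℕ → ℤ) {T H : Module.End K V} (hT : ∀ i, Commute T (P i))
    (hH : H = ∑ i ∈ range m, (lam i : K) • P i) {Q : K[X]} (hQ : IntSplit Q)
    (hQT : aeval T Q = 0) :
    ∃ q : ℤ, 0 ≤ q ∧ LinearMap.trace K V ((T - H) * (T - H)) = q ∧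
      (q = 0 → IsNilpotent (T - H)) := by
  set Kb := AlgebraicClosure K
  obtain ⟨q, hq0, hq1, hq2⟩ := sq_closed (K := Kb) (V := Kb ⊗[K] V)
    (P := fun i => (P i).baseChange Kb) (m := m)
    ⟨fun i => by rw [← bc_mul, hP.idem], fun i j hij => by rw [← bc_mul, hP.orth i j hij, bc_zero],
      by
        have := congrArg (fun F => Module.End.baseChangeHom K Kb V F) hP.sum
        rw [map_sum, map_one] at this
        exact this⟩ lam (T := T.baseChange Kb) (H := H.baseChange Kb)
    (fun i => by
      have := (hT i).eq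
      rw [Commute, SemiconjBy, ← bc_mul, ← bc_mul, this])
    (by
      have h3 := congrArg (fun F => Module.End.baseChangeHom K Kb V F) hH
      rw [map_sum] at h3
      refine h3.trans (Finset.sum_congr rfl (fun i _ => ?_))
      have h4 := bc_smul Kb ((lam i : K)) (P i)
      rw [map_intCast] at h4
      exact h4)
    (hQ.map Kb) (by rw [← bc_aeval, hQT, bc_zero])
  refine ⟨q, hq0, ?_, fun h0 => ?_⟩
  · rw [← bc_sub, ← bc_mul] at hq1
    have h3 := LinearMap.trace_baseChange ((T - H) * (T - H)) Kb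
    rw [hq1, ← map_intCast (algebraMap K Kb) q] at h3
    exact ((algebraMap K Kb).injective h3).symm
  · obtain ⟨N, hN⟩ := hq2 h0
    refine ⟨N, bc_inj Kb ?_⟩
    rw [bc_pow, bc_sub, hN, bc_zero]

end Pool.Agent.R911.Num
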