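import Pool.Agent.H447R3.WtB
import Pool.Agent.R911.Num.Spec

/-!
# The quotient of an algebra of operators by the radical of the trace form
-/

open Polynomial Finset

namespace Pool.Agent.R911.Num

open Pool.Agent.H914 Pool.Agent.H447

variable {K : Type*} [Field K] [CharZero K] {V : Type*} [AddCommGroup V] [Module K V]
  [Module.Finite K V]

/-- The radical of the trace form. -/
def trRad (A : Subalgebra K (Module.End K V)) : Ideal A where
  carrier := {x | ∀ y : A, LinearMap.trace K V ((x : Module.End K V) * (y : Module.End K V)) = 0}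
  zero_mem' := fun y => by rw [ZeroMemClass.coe_zero, zero_mul, map_zero]
  add_mem' := by
    intro a b ha hb y
    rw [Subalgebra.coe_add, add_mul, map_add, ha y, hb y, add_zero]
  smul_mem' := by
    intro c a ha y
    rw [smul_eq_mul, Subalgebra.coe_mul, mul_assoc, LinearMap.trace_mul_comm, mul_assoc]
    exact ha (y * c)

omit [CharZero K] [Module.Finite K V] in
lemma mem_trRad {A : Subalgebra K (Module.End K V)} {x : A} : x ∈ trRad A ↔
    ∀ y : A, LinearMap.trace K V ((x : Module.End K V) * (y : Module.End K V)) = 0 := Iff.rfl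

instance (A : Subalgebra K (Module.End K V)) : (trRad A).IsTwoSided where
  mul_mem_of_left := by
    intro a b ha y
    rw [Subalgebra.coe_mul, mul_assoc]
    exact ha (b * y)

/-- The quotient map. -/
def qmap (A : Subalgebra K (Module.End K V)) : A →ₐ[K] (A ⧸ trRad A) :=
  Ideal.Quotient.mkₐ K (trRad A)

omit [CharZero K] [Module.Finite K V] in
lemma qmap_surj (A : Subalgebra K (Module.End K V)) : Function.Surjective (qmap A) :=
  Ideal.Quotient.mk_surjective

omit [CharZero K] [Module.Finite K V] in
lemma qmap_eq_zero {A : Subalgebra K (Module.End K V)} {x : A} : qmap A x = 0 ↔ x ∈ trRad A :=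
  Ideal.Quotient.eq_zero_iff_mem

lemma nilp_of_mem {A : Subalgebra K (Module.End K V)} {x : A} (hx : x ∈ trRad A) :
    IsNilpotent (x : Module.End K V) := by
  apply isNilpotent_of_trace_pow
  intro k
  rw [pow_succ']
  exact hx (x ^ k)

/-- Nilpotency can be checked in the quotient. -/
lemma nilp_of_qmap {A : Subalgebra K (Module.End K V)} {x : A} (hx : IsNilpotent (qmap A x)) :
    IsNilpotent (x : Module.End K V) := by
  obtain ⟨N, hN⟩ := hx
  rw [← map_pow, qmap_eq_zero] at hN
  obtain ⟨M, hM⟩ := nilp_of_mem hN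
  refine ⟨N * M, ?_⟩
  rw [pow_mul]
  exact hM

/-- **Integrality.** -/
theorem exists_poly (A : Subalgebra K (Module.End K V)) {L w : Module.End K V} (hL : L ∈ A)
    (hw : w ∈ A) (hLn : IsNilpotent L)
    (hj : ∀ y ∈ A, LinearMap.trace K V ((((L * w - w * L) * L - L * (L * w - w * L)) - 2 * L) * y)
      = 0) : ∃ Q : K[X], IntSplit Q ∧ aeval (L * w - w * L) Q = 0 := by
  set L' : A := ⟨L, hL⟩ with hL'
  set w' : A := ⟨w, hw⟩ with hw'
  set T' : A := L' * w' - w' * L' with hT'
  have h1 : qmap A T' = qmap A L' * qmap A w' - qmap A w' * qmap A L' := by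
    rw [hT', map_sub, map_mul, map_mul]
  have h2 : qmap A T' * qmap A L' - qmap A L' * qmap A T' = 2 * qmap A L' := by
    rw [← sub_eq_zero, ← map_mul, ← map_mul, ← map_sub, ← map_ofNat (qmap A) 2, ← map_mul,
      ← map_sub, qmap_eq_zero]
    intro y
    exact hj y y.2
  have h3 : IsNilpotent (qmap A L') := by
    obtain ⟨N, hN⟩ := hLn
    refine ⟨N, ?_⟩
    rw [← map_pow]
    have : L' ^ N = 0 := Subtype.ext hN
    rw [this, map_zero]
  obtain ⟨P, hP, hPT⟩ := exists_intSplit (K := K) h1 h2 h3
  rw [Polynomial.aeval_algHom_apply, qmap_eq_zero] at hPT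
  obtain ⟨M, hM⟩ := nilp_of_mem hPT
  refine ⟨P ^ M, ?_, ?_⟩
  · induction M with
    | zero => rw [pow_zero]; exact IntSplit.one
    | succ M ih =>
      clear ih
      have : ∀ k, IntSplit (P ^ k) := by
        intro k
        induction k with
        | zero => rw [pow_zero]; exact IntSplit.one
        | succ k ih => rw [pow_succ]; exact ih.mul hP
      exact this _
  · have h4 : (aeval T' P : Module.End K V) = aeval (L * w - w * L) P := by
      have h5 := Polynomial.aeval_algHom_apply A.val T' P
      exact h5.symm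
    rw [h4] at hM
    rw [map_pow, hM]

/-- **The key to the existence of numerical lowering operators.** -/
theorem trace_zero (A : Subalgebra K (Module.End K V)) {L v : Module.End K V} (hL : L ∈ A)
    (hv : v ∈ A) (hLn : IsNilpotent L)
    (hj : ∀ y ∈ A, LinearMap.trace K V (((L * v - v * L) * L - L * (L * v - v * L)) * y) = 0) :
    LinearMap.trace K V (L * v) = 0 := by
  set L' : A := ⟨L, hL⟩ with hL'
  set v' : A := ⟨v, hv⟩ with hv'
  set C' : A := L' * v' - v' * L' with hC'
  have h1 : qmap A C' = qmap A L' * qmap A v' - qmap A v' * qmap A L' := by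
    rw [hC', map_sub, map_mul, map_mul]
  have h2 : qmap A L' * qmap A C' = qmap A C' * qmap A L' := by
    rw [eq_comm, ← sub_eq_zero, ← map_mul, ← map_mul, ← map_sub, qmap_eq_zero]
    intro y
    exact hj y y.2
  have h3 : IsNilpotent (qmap A L') := by
    obtain ⟨N, hN⟩ := hLn
    refine ⟨N, ?_⟩
    rw [← map_pow]
    have : L' ^ N = 0 := Subtype.ext hN
    rw [this, map_zero]
  -- the commutator is nilpotent
  have h4 : IsNilpotent (C' : Module.End K V) := by
    apply isNilpotent_of_trace_pow
    intro k
    have e1 : ((C' : Module.End K V)) ^ (k + 1) = (L * v - v * L) * (C' : Module.End K V) ^ k :=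
      pow_succ' _ _
    rw [e1, sub_mul, map_sub, mul_assoc L, LinearMap.trace_mul_comm, mul_assoc v, mul_assoc v,
      ← map_sub, ← mul_sub]
    have h5 : qmap A (C' ^ k * L' - L' * C' ^ k) = 0 := by
      rw [map_sub, map_mul, map_mul, map_pow,
        (Commute.pow_right (show Commute (qmap A L') (qmap A C') from h2) k).eq, sub_self]
    rw [qmap_eq_zero] at h5
    have h6 := h5 v'
    rw [LinearMap.trace_mul_comm] at h6
    exact h6
  have h5 : IsNilpotent (qmap A C') := by
    obtain ⟨N, hN⟩ := h4
    refine ⟨N, ?_⟩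
    rw [← map_pow]
    have : C' ^ N = 0 := Subtype.ext hN
    rw [this, map_zero]
  have h6 := isNilpotent_mul h1 h2 h3 h5
  rw [← map_mul] at h6
  exact (LinearMap.isNilpotent_trace_of_isNilpotent (nilp_of_qmap h6)).eq_zero

end Pool.Agent.R911.Num
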