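import Pool.Agent.H447R3.SpB
import Pool.Agent.R911.Num.Alg

/-!
# Numerical lowering operators
-/

open Polynomial Finset

namespace Pool.Agent.R911.Num

open Pool.Agent.H914 Pool.Agent.H447

variable {K : Type*} [Field K] [CharZero K] {V : Type*} [AddCommGroup V] [Module K V]
  {gr : ℕ → Submodule K V} {n : ℕ} {L : Module.End K V} {R : ℤ → Module.End K V → Prop}

/-- The double commutator. -/
def dc (L w : Module.End K V) : Module.End K V :=
  (L * w - w * L) * L - L * (L * w - w * L)

/-- The total algebra. -/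
def totAlg (hR : OpAlg gr R) : Subalgebra K (Module.End K V) where
  carrier := tot R
  mul_mem' := fun {a b} ha hb => tot_mul hR a ha b hb
  add_mem' := fun {a b} ha hb => Submodule.add_mem _ ha hb
  algebraMap_mem' := fun c => by
    rw [Algebra.algebraMap_eq_smul_one]
    exact Submodule.smul_mem _ _ (mem_tot (Submodule.subset_span hR.one))

lemma trace_hom [Module.Finite K V] (h : DirectSum.IsInternal gr) {d : ℤ} (hd : d ≠ 0)
    {x : Module.End K V} (hx : IsHom gr d x) : LinearMap.trace K V x = 0 := by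
  have h1 := congrArg (LinearMap.trace K V) (hx.wt_comm h 0)
  rw [map_add, LinearMap.trace_mul_comm, map_smul, left_eq_add, smul_eq_mul] at h1
  exact (mul_eq_zero.1 h1).resolve_left (by exact_mod_cast hd)

/-- Triviality against the total algebra. -/
lemma null_tot [Module.Finite K V] (hR : OpAlg gr R) (h : DirectSum.IsInternal gr) {d : ℤ}
    {x : Module.End K V} (hx : x ∈ KS R d)
    (h0 : ∀ y ∈ KS R (-d), LinearMap.trace K V (x * y) = 0) :
    ∀ y ∈ tot R, LinearMap.trace K V (x * y) = 0 := by
  intro y hy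
  refine Submodule.iSup_induction (fun e : ℤ => KS R e)
    (motive := fun y => LinearMap.trace K V (x * y) = 0) hy ?_ ?_ ?_
  · intro e y hy
    by_cases he : e = -d
    · subst he; exact h0 y hy
    · have h1 := hR.kspan.hom (hR.kspan.mul hx hy)
      exact trace_hom h (by omega) h1
  · rw [mul_zero, map_zero]
  · intro a b ha hb; rw [mul_add, map_add, ha, hb, add_zero]

lemma trace_dc (w v : Module.End K V) : LinearMap.trace K V (dc L w * v) =
    LinearMap.trace K V ((L * w - w * L) * (L * v - v * L)) := by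
  unfold dc
  have e1 : LinearMap.trace K V (L * (L * w - w * L) * v) =
      LinearMap.trace K V ((L * w - w * L) * (v * L)) := by
    rw [mul_assoc, LinearMap.trace_mul_comm, mul_assoc]
  rw [sub_mul, map_sub, e1, mul_assoc, ← map_sub, ← mul_sub]

variable [Module.Finite K V]

section Ineq

variable (hR : OpAlg gr R) (h : DirectSum.IsInternal gr)
    (hbd : ∀ i, 2 * n + 1 ≤ i → gr i = ⊥) (hL : L ∈ KS R 1) {w : Module.End K V}
    (hw : w ∈ KS R (-1))

include hR h hbd hL hw

omit h hbd [Module.Finite K V] in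
lemma comm_mem : L * w - w * L ∈ KS R 0 :=
  hR.kspan.sub (hR.kspan.cast (hR.kspan.mul hL hw) (by ring))
    (hR.kspan.cast (hR.kspan.mul hw hL) (by ring))

omit h hbd [Module.Finite K V] in
lemma dc_mem : dc L w ∈ KS R 1 :=
  hR.kspan.sub (hR.kspan.cast (hR.kspan.mul (comm_mem hR hL hw) hL) (by ring))
    (hR.kspan.cast (hR.kspan.mul hL (comm_mem hR hL hw)) (by ring))

omit hbd [Module.Finite K V] in
lemma wt_L : wt h n * L - L * wt h n = 2 * L := by
  have h1 := (hR.kspan.hom hL).wt_comm h n
  rw [h1, add_sub_cancel_left]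
  push_cast
  rw [ofNat_smul_eq_nsmul, nsmul_eq_mul]
  rfl

omit hbd in
lemma trace_wt_comm (x : Module.End K V) :
    LinearMap.trace K V (wt h n * (L * x - x * L)) = 2 * LinearMap.trace K V (L * x) := by
  have e3 : LinearMap.trace K V (wt h n * (x * L)) = LinearMap.trace K V (L * wt h n * x) := by
    rw [← mul_assoc, LinearMap.trace_mul_comm, mul_assoc]
  rw [mul_sub, map_sub, e3, ← mul_assoc, ← map_sub, ← sub_mul, wt_L hR h hL hw, mul_assoc, two_mul,
    map_add, two_mul]

/-- **The inequality.** -/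
theorem ineq (hj : ∀ v ∈ KS R (-1), LinearMap.trace K V ((dc L w - 2 * L) * v) = 0) :
    ∃ q : ℤ, 0 ≤ q ∧ LinearMap.trace K V (wt h n * wt h n) -
      2 * LinearMap.trace K V (L * w) = q ∧ (q = 0 → IsNilpotent ((L * w - w * L) - wt h n)) := by
  have hT : L * w - w * L ∈ KS R 0 := comm_mem hR hL hw
  have hTh : IsHom gr 0 (L * w - w * L) := by simpa using hR.kspan.hom hT
  have hLn : IsNilpotent L := by
    have hLh : IsHom gr 2 L := by simpa using hR.kspan.hom hL
    apply Sl2.nil_of_comm (c := 2) two_ne_zero (h := wt h n)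
    rw [wt_L hR h hL hw, ofNat_smul_eq_nsmul, nsmul_eq_mul]
    rfl
  have h2L : (2 : Module.End K V) * L ∈ KS R 1 := by
    rw [two_mul]; exact Submodule.add_mem _ hL hL
  have hjt : ∀ y ∈ totAlg hR, LinearMap.trace K V ((dc L w - 2 * L) * y) = 0 :=
    null_tot hR h (Submodule.sub_mem _ (dc_mem hR hL hw) h2L) hj
  obtain ⟨Q, hQ, hQT⟩ := exists_poly (totAlg hR) (mem_tot hL) (mem_tot hw) hLn hjt
  obtain ⟨q, hq0, hq1, hq2⟩ := sq_trace (projSys h hbd) (fun i => (i : ℤ) - n)
    (fun i => (hTh.proj_comm h i).symm) (H := wt h n) (by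
      rw [wt, scal_eq_sum h hbd]
      apply Finset.sum_congr rfl
      intro i _
      rw [node]
      push_cast
      rfl) hQ hQT
  refine ⟨q, hq0, ?_, hq2⟩
  rw [← hq1]
  have e1 : LinearMap.trace K V ((L * w - w * L) * (L * w - w * L)) =
      2 * LinearMap.trace K V (L * w) := by
    rw [← trace_dc]
    have e2 := hj w hw
    rw [sub_mul, map_sub, sub_eq_zero, mul_assoc, two_mul, map_add] at e2
    rw [e2, two_mul]
  have e3 : LinearMap.trace K V (wt h n * (L * w - w * L)) =
      2 * LinearMap.trace K V (L * w) := trace_wt_comm hR h hL hw w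
  have e4 : LinearMap.trace K V ((L * w - w * L) * wt h n) =
      2 * LinearMap.trace K V (L * w) := by rw [LinearMap.trace_mul_comm, e3]
  generalize L * w - w * L = T at e1 e3 e4
  rw [sub_mul, mul_sub, mul_sub, map_sub, map_sub, map_sub, e1, e3, e4]
  ring

end Ineq

/-- The bilinear form of the double commutator. -/
noncomputable def cform (L : Module.End K V) :
    Module.End K V →ₗ[K] Module.End K V →ₗ[K] K :=
  LinearMap.mk₂ K (fun w v => LinearMap.trace K V ((L * w - w * L) * (L * v - v * L)))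
    (fun a b c => by
      rw [mul_add, add_mul, add_sub_add_comm, add_mul, map_add])
    (fun c a b => by
      rw [mul_smul_comm, smul_mul_assoc, ← smul_sub, smul_mul_assoc, map_smul])
    (fun a b c => by
      rw [mul_add, add_mul, add_sub_add_comm, mul_add, map_add])
    (fun c a b => by
      rw [mul_smul_comm, smul_mul_assoc, ← smul_sub, mul_smul_comm, map_smul])

omit [CharZero K] [Module.Finite K V] in
lemma cform_apply (L w v : Module.End K V) : cform L w v =
    LinearMap.trace K V ((L * w - w * L) * (L * v - v * L)) := rfl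

omit [CharZero K] [Module.Finite K V] in
lemma cform_symm (L w v : Module.End K V) : cform L w v = cform L v w := by
  rw [cform_apply, cform_apply, LinearMap.trace_mul_comm]

/-- **Existence.** -/
theorem exists_lowering (hR : OpAlg gr R) (h : DirectSum.IsInternal gr) (hL : L ∈ KS R 1) :
    ∃ w ∈ KS R (-1), ∀ v ∈ KS R (-1), LinearMap.trace K V ((dc L w - 2 * L) * v) = 0 := by
  have hLn : IsNilpotent L := by
    apply Sl2.nil_of_comm (c := 2) two_ne_zero (h := wt h 0)
    rw [wt_L hR h hL (w := 0) (Submodule.zero_mem _), ofNat_smul_eq_nsmul, nsmul_eq_mul]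
    rfl
  obtain ⟨w, hw, hw'⟩ := exists_rep_of_orth (cform L) (KS R (-1)) (KS R (-1))
    (LinearMap.trace K V ∘ₗ LinearMap.mulLeft K (2 * L)) (by
      intro v hv h0
      have h1 : ∀ y ∈ totAlg hR, LinearMap.trace K V (dc L v * y) = 0 := by
        apply null_tot hR h (dc_mem hR hL hv)
        intro y hy
        rw [trace_dc, ← cform_apply, cform_symm]
        exact h0 y hy
      have h2 := trace_zero (totAlg hR) (mem_tot hL) (mem_tot hv) hLn h1
      rw [LinearMap.comp_apply, LinearMap.mulLeft_apply, mul_assoc, two_mul, map_add, h2,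
        add_zero])
  refine ⟨w, hw, fun v hv => ?_⟩
  have h1 := hw' v hv
  rw [cform_apply, ← trace_dc, LinearMap.comp_apply, LinearMap.mulLeft_apply] at h1
  rw [sub_mul, map_sub, h1, sub_self]

/-- **Independence.** -/
theorem indep {w w' : Module.End K V} (hw : w ∈ KS R (-1)) (hw' : w' ∈ KS R (-1))
    (hj : ∀ v ∈ KS R (-1), LinearMap.trace K V ((dc L w - 2 * L) * v) = 0)
    (hj' : ∀ v ∈ KS R (-1), LinearMap.trace K V ((dc L w' - 2 * L) * v) = 0) :
    2 * LinearMap.trace K V (L * w) = 2 * LinearMap.trace K V (L * w') := by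
  have e : ∀ x v : Module.End K V, LinearMap.trace K V ((dc L x - 2 * L) * v) =
      cform L x v - 2 * LinearMap.trace K V (L * v) := by
    intro x v
    rw [sub_mul, map_sub, cform_apply, ← trace_dc, mul_assoc, two_mul (L * v), map_add, two_mul]
  have h1 := hj w' hw'
  have h2 := hj' w hw
  rw [e] at h1 h2
  rw [cform_symm] at h1
  linear_combination h1 - h2

/-- **Rational solutions.** -/
theorem exists_rational (hR : OpAlg gr R) (hL : R 1 L)
    (hrat : ∀ x, R 0 x → ∃ q : ℚ, LinearMap.trace K V x = q) {w : Module.End K V}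
    (hw : w ∈ KS R (-1))
    (hj : ∀ v ∈ KS R (-1), LinearMap.trace K V ((dc L w - 2 * L) * v) = 0) :
    ∃ w₀, R (-1) w₀ ∧ ∀ v, R (-1) v → LinearMap.trace K V ((dc L w₀ - 2 * L) * v) = 0 := by
  obtain ⟨ret, hret⟩ := exists_retract K
  have hw2 := hw
  rw [KS, Submodule.mem_span_set'] at hw2
  obtain ⟨m, c, g, hg⟩ := hw2
  have hgR : ∀ i, R (-1) (g i : Module.End K V) := fun i => (g i).2
  have e : ∀ x v : Module.End K V, LinearMap.trace K V ((dc L x - 2 * L) * v) =
      cform L x v - 2 * LinearMap.trace K V (L * v) := by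
    intro x v
    rw [sub_mul, map_sub, cform_apply, ← trace_dc, mul_assoc, two_mul (L * v), map_add, two_mul]
  refine ⟨∑ i, ((ret (c i) : ℚ) : K) • (g i : Module.End K V),
    hR.sum (fun i _ => hR.smul _ (hgR i)), ?_⟩
  intro v hv
  have hcR : ∀ x, R (-1) x → R 0 (L * x - x * L) := fun x hx =>
    hR.sub (hR.cast (hR.mul hL hx) (by ring)) (hR.cast (hR.mul hx hL) (by ring))
  choose a ha using fun i => hrat ((L * (g i : Module.End K V) - (g i : Module.End K V) * L) *
    (L * v - v * L)) (hR.cast (hR.mul (hcR _ (hgR i)) (hcR v hv)) (by ring))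
  obtain ⟨b, hb⟩ := hrat (L * v) (hR.cast (hR.mul hL hv) (by ring))
  have h1 := hj v (Submodule.subset_span hv)
  rw [e, ← hg, map_sum, LinearMap.sum_apply, hb, sub_eq_zero] at h1
  have h2 : ∀ i, (cform L (c i • (g i : Module.End K V))) v = c i * (a i : K) := by
    intro i
    rw [map_smul, LinearMap.smul_apply, cform_apply, ha, smul_eq_mul]
  rw [Finset.sum_congr rfl (fun i _ => h2 i)] at h1
  have h3 := congrArg ret h1
  rw [map_sum, show (2 : K) * (b : K) = ((2 * b : ℚ) : K) by push_cast; rfl,
    ret_ratCast hret] at h3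
  rw [e, map_sum, LinearMap.sum_apply, hb]
  have h4 : ∀ i, (cform L (((ret (c i) : ℚ) : K) • (g i : Module.End K V))) v =
      ((ret (c i * (a i : K)) : ℚ) : K) := by
    intro i
    rw [map_smul, LinearMap.smul_apply, cform_apply, ha, smul_eq_mul, ret_mul]
    push_cast
    rfl
  rw [Finset.sum_congr rfl (fun i _ => h4 i), ← Rat.cast_sum, h3]
  push_cast
  rw [sub_self]

end Pool.Agent.R911.Num
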