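import Pool.Agent.H447R3.SpC
import Pool.Agent.H447R3.NcB
import Pool.Agent.R911.Num.Defs
import Pool.Agent.R911.Num.Main

/-!
# The Lefschetz standard conjecture and the numerical Lefschetz number
-/

open CategoryTheory AlgebraicGeometry Finset

universe u v

namespace Pool.Agent.R911.Num

open Pool.Agent.H914 Pool.Agent.H447 VarClass Obj WeilCohomology

section Abs

variable {K : Type*} [Field K] [CharZero K] {V : Type*} [AddCommGroup V] [Module K V]
  [Module.Finite K V] {gr : ℕ → Submodule K V} {n : ℕ} {L : Module.End K V}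
  {R : ℤ → Module.End K V → Prop}

/-- Injective operators from a nilpotent difference. -/
theorem inj_of_nilp (hR : OpAlg gr R) (h : DirectSum.IsInternal gr)
    (hbd : ∀ i, 2 * n + 1 ≤ i → gr i = ⊥) (hL : L ∈ KS R 1) (hHL : HardLef gr n L)
    {z : Module.End K V} (hz : z ∈ KS R (-1)) (hcn : IsNilpotent ((L * z - z * L) - wt h n)) :
    ∀ m ≤ n, ∃ y ∈ KS R (-m), ∀ a ∈ gr (n + m), y a = 0 → a = 0 := by
  have hKS := hR.kspan
  have hLh : IsHom gr 2 L := by simpa using hKS.hom hL
  have hTK : L * z - z * L ∈ KS R 0 :=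
    hKS.sub (hKS.cast (hKS.mul hL hz) (by ring)) (hKS.cast (hKS.mul hz hL) (by ring))
  set c := L * z - z * L - wt h n with hc
  have hch : IsHom gr 0 c :=
    (by simpa using hKS.hom hTK : IsHom gr 0 (L * z - z * L)).sub (isHom_scal h _)
  have hP : ∀ i, proj h i ∈ KS R 0 := by
    intro i
    obtain ⟨N, hN⟩ := hcn
    by_cases hi : i < 2 * n + 1
    · rw [← ev_herm_of_nilp h hbd hch hN (Finset.mem_range.2 hi),
        show wt h n + c = L * z - z * L by rw [hc]; abel]
      exact hKS.ev hTK _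
    · have : proj h i = 0 := by
        apply gr_ext h
        intro j a ha
        by_cases hj : j = i
        · subst hj
          rw [hbd j (by omega)] at ha
          rw [(Submodule.mem_bot _).1 ha, map_zero, map_zero]
        · rw [proj_ne h ha hj, LinearMap.zero_apply]
      rw [this]
      exact hKS.zero 0
  have key := exists_inverse_of_comm (A := tot R) (s := 1) h hbd hLh hHL
    (mem_tot (Submodule.subset_span hR.one)) (tot_mul hR)
    (mem_tot hL) (fun i => mem_tot (hP i)) (u := fun _ => L) (v := fun _ => z)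
    (fun _ => mem_tot hL) (fun _ => mem_tot hz) (c := c)
    (by rw [hc, Fin.sum_univ_one]; abel) hcn
  intro m hm
  obtain ⟨y, hy, hy1, hy2, hy3⟩ := key m hm
  refine ⟨y, ?_, ?_⟩
  · have h1 := tot_extract hR h hP hm hy
    rwa [hy1, hy2] at h1
  · intro a ha h0
    have h1 := congrArg (fun F => F a) hy3
    rw [Module.End.mul_apply, h0, map_zero, proj_same h ha] at h1
    exact h1.symm

end Abs

variable {k : Type u} [Field k] {𝒱 : VarClass k} {ops : CycleOps 𝒱}
  {W : WeilCohomology.{u, v} ops} {X Y : 𝒱.Obj}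

lemma lefCyc_mem {D : X.Cycles} (hD : X.IsCyc 1 D) :
    (X.prod X).IsCyc (X.dim + 1) (lefCyc ops X D) :=
  ops.push_mem _ hD (by simp only [dim_prod]; omega)

lemma corr_lefCyc {D : X.Cycles} : W.corr (W.cl _ (lefCyc ops X D)) =
    LinearMap.mulLeft W.K (W.cl X D) := by
  apply LinearMap.ext
  intro a
  rw [lefCyc, W.cl_push, corr_diag, LinearMap.mulLeft_apply]

lemma corr_comp' {q : ℕ} {b a : (X.prod X).Cycles} (hb : (X.prod X).IsCyc q b) :
    W.corr (W.cl _ (comp ops X b a)) = W.corr (W.cl _ b) * W.corr (W.cl _ a) :=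
  corr_compCyc W hb

lemma ring_aux {R : Type*} [Ring R] (L w : R) :
    2 * (L * (w * L)) - (L * (L * w) + w * (L * L) + 2 * L) =
      (L * w - w * L) * L - L * (L * w - w * L) - 2 * L := by
  noncomm_ring

/-- Rational traces. -/
lemma rat_trace (hS : SignStd W X) {x : Module.End W.K (W.H X)} (hx : ROp W X 0 x) :
    ∃ q : ℚ, LinearMap.trace W.K (W.H X) x = q := by
  obtain ⟨q, hq⟩ := rop_str (par (W.isInternal X) * x)
    (rop_opAlg.cast (rop_opAlg.mul (par_rop_of_sign hS) hx) (by ring))
  refine ⟨q, ?_⟩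
  rw [← hq, ← mul_assoc, H914.par_mul_par, one_mul]

/-- Numerical triviality in terms of ordinary traces. -/
lemma numEquiv_iff_trace (hS : SignStd W X) (hn : 1 ≤ X.dim) {z z' : (X.prod X).Cycles}
    (hz : (X.prod X).IsCyc (X.dim + 1) z) (hz' : (X.prod X).IsCyc (X.dim + 1) z') :
    NumEquiv ops (X.prod X) (X.dim + 1) z z' ↔ ∀ v, ROp W X (-1) v →
      LinearMap.trace W.K (W.H X) ((W.corr (W.cl _ z) - W.corr (W.cl _ z')) * v) = 0 := by
  have hOA := rop_opAlg (W := W) (X := X)
  have hpar := par_rop_of_sign hS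
  have hxR : ROp W X 1 (W.corr (W.cl _ z) - W.corr (W.cl _ z')) :=
    hOA.sub (rop_corr (by push_cast; ring) hz) (rop_corr (by push_cast; ring) hz')
  have hpp : par (W.isInternal X) * par (W.isInternal X) = 1 := H914.par_mul_par _
  constructor
  · intro hc v hv
    have hv' : ROp W X (-1) (v * par (W.isInternal X)) :=
      hOA.cast (hOA.mul hv hpar) (by ring)
    obtain ⟨u, hu, hu'⟩ := exists_of_rop (p := X.dim - 1) (by omega) hv'
    have h1 := hc (ops.pull (swap X X) u) (by
      rw [dim_prod, show X.dim + X.dim - (X.dim + 1) = X.dim - 1 by omega]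
      exact ops.pull_mem _ hu)
    have e : ∀ y : (X.prod X).Cycles, (X.prod X).IsCyc (X.dim + 1) y →
        LinearMap.trace W.K (W.H X) (W.corr (W.cl _ y) * v) =
          ((X.prod X).V.degCycle (ops.mul y (ops.pull (swap X X) u)) : W.K) := by
      intro y hy
      rw [deg_eq_str (by omega) hy (ops.pull_mem _ hu), W.cl_pull, W.cl_pull, map_swap_swap, hu',
        LinearMap.trace_mul_comm W.K (par (W.isInternal X)), mul_assoc, mul_assoc, hpp, mul_one]
    rw [sub_mul, map_sub, e z hz, e z' hz', h1, sub_self]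
  · intro hc y hy
    rw [dim_prod, show X.dim + X.dim - (X.dim + 1) = X.dim - 1 by omega] at hy
    have h1 := hc _ (hOA.cast (hOA.mul (rop_corr (W := W) (p := X.dim - 1) (d := -1) (by omega)
      (ops.pull_mem (swap X X) hy)) hpar) (by ring))
    have e : ∀ x : (X.prod X).Cycles, (X.prod X).IsCyc (X.dim + 1) x →
        LinearMap.trace W.K (W.H X) (W.corr (W.cl _ x) *
          (W.corr (W.cl _ (ops.pull (swap X X) y)) * par (W.isInternal X))) =
          ((X.prod X).V.degCycle (ops.mul x y) : W.K) := by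
      intro x hx
      rw [deg_eq_str (by omega) hx hy, ← mul_assoc, LinearMap.trace_mul_comm]
    rw [sub_mul, map_sub, e z hz, e z' hz', sub_eq_zero] at h1
    exact_mod_cast h1

/-- Numerical lowering correspondences in terms of traces. -/
lemma numLowering_iff (hS : SignStd W X) (hn : 1 ≤ X.dim) {D : X.Cycles} (hD : X.IsCyc 1 D)
    {w : (X.prod X).Cycles} (hw : (X.prod X).IsCyc (X.dim - 1) w) :
    NumLowering ops X D w ↔ ∀ v, ROp W X (-1) v → LinearMap.trace W.K (W.H X)
      ((dc (LinearMap.mulLeft W.K (W.cl X D)) (W.corr (W.cl _ w)) -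
        2 * LinearMap.mulLeft W.K (W.cl X D)) * v) = 0 := by
  have hℓ := lefCyc_mem (ops := ops) hD
  have h1 : (X.prod X).IsCyc X.dim (comp ops X w (lefCyc ops X D)) :=
    compCyc_mem hℓ hw (by omega)
  have h2 : (X.prod X).IsCyc X.dim (comp ops X (lefCyc ops X D) w) :=
    compCyc_mem hw hℓ (by omega)
  have h3 : (X.prod X).IsCyc (X.dim + 2) (comp ops X (lefCyc ops X D) (lefCyc ops X D)) :=
    compCyc_mem hℓ hℓ (by omega)
  have h4 : (X.prod X).IsCyc (X.dim + 1)
      ((2 : ℚ) • comp ops X (lefCyc ops X D) (comp ops X w (lefCyc ops X D))) :=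
    SmVar.IsCyc.smul _ (compCyc_mem h1 hℓ (by omega))
  have h5 : (X.prod X).IsCyc (X.dim + 1)
      (comp ops X (lefCyc ops X D) (comp ops X (lefCyc ops X D) w) +
        comp ops X w (comp ops X (lefCyc ops X D) (lefCyc ops X D)) +
          (2 : ℚ) • lefCyc ops X D) :=
    SmVar.IsCyc.add (SmVar.IsCyc.add (compCyc_mem h2 hℓ (by omega)) (compCyc_mem h3 hw (by omega)))
      (SmVar.IsCyc.smul _ hℓ)
  have h6 : W.corr (W.cl _ ((2 : ℚ) • comp ops X (lefCyc ops X D)
      (comp ops X w (lefCyc ops X D)))) - W.corr (W.cl _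
        (comp ops X (lefCyc ops X D) (comp ops X (lefCyc ops X D) w) +
        comp ops X w (comp ops X (lefCyc ops X D) (lefCyc ops X D)) +
          (2 : ℚ) • lefCyc ops X D)) =
      dc (LinearMap.mulLeft W.K (W.cl X D)) (W.corr (W.cl _ w)) -
        2 * LinearMap.mulLeft W.K (W.cl X D) := by
    have e2 : ∀ y : Module.End W.K (W.H X), ((2 : ℚ) : W.K) • y = 2 * y := by
      intro y
      push_cast
      rw [ofNat_smul_eq_nsmul, nsmul_eq_mul]
      rfl
    rw [map_add, map_add, corr_add, corr_add, cl_smul, cl_smul, corr_smul, corr_smul, e2, e2,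
      corr_comp' hℓ, corr_comp' hw, corr_comp' hℓ, corr_comp' hℓ, corr_comp' hw, corr_comp' hℓ,
      corr_lefCyc, dc]
    exact ring_aux _ _
  rw [NumLowering, numEquiv_iff_trace hS hn h4 h5, h6]
  exact and_iff_right hw

/-- **The main theorem.** -/
theorem lefschetz_number (hS : SignStd W X) (hn : 1 ≤ X.dim) {D : X.Cycles} (hD : X.IsCyc 1 D)
    (hHL : HardLefschetz W X D) :
    ∃ ν : ℤ, (∃ w, NumLowering ops X D w) ∧
      (∀ w, NumLowering ops X D w → lefTrace W X D w = (ν : W.K)) ∧
      ν ≤ weightSum W X ∧ (LefschetzB W X D ↔ ν = weightSum W X) := by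
  have h := W.isInternal X
  have hLR := rop_mulLeft (W := W) hD
  have hLh : IsHom (W.gr X) 2 (LinearMap.mulLeft W.K (W.cl X D)) := by
    simpa using rop_opAlg.hom hLR
  have hOA := rop_opAlg (W := W) (X := X)
  obtain ⟨f, t, hf, hfv⟩ := exists_sl2 h hLh W_hbd hHL
  have hLK : LinearMap.mulLeft W.K (W.cl X D) ∈ KS (ROp W X) 1 := Submodule.subset_span hLR
  -- extension to the span
  have hext : ∀ x : Module.End W.K (W.H X),
      (∀ v, ROp W X (-1) v → LinearMap.trace W.K (W.H X) (x * v) = 0) →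
      ∀ v ∈ KS (ROp W X) (-1), LinearMap.trace W.K (W.H X) (x * v) = 0 := by
    intro x hx v hv
    induction hv using Submodule.span_induction with
    | mem y hy => exact hx y hy
    | zero => rw [mul_zero, map_zero]
    | add a b _ _ ha hb => rw [mul_add, map_add, ha, hb, add_zero]
    | smul c a _ ha => rw [mul_smul_comm, map_smul, ha, smul_zero]
  -- the trace of the square of the weight operator
  have hwt : LinearMap.trace W.K (W.H X) (wt h X.dim * wt h X.dim) = (weightSum W X : W.K) := by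
    rw [wt, scal_mul, trace_scal h W_hbd, weightSum]
    push_cast
    apply Finset.sum_congr rfl
    intro i _
    rw [node, WeilCohomology.betti]
    push_cast
    ring
  -- existence
  obtain ⟨w₁, hw₁, hj₁⟩ := exists_lowering hOA h hLK
  obtain ⟨w₂, hw₂, hj₂⟩ := exists_rational hOA hLR (fun x hx => rat_trace hS hx) hw₁ hj₁
  obtain ⟨w₀, hw₀, rfl⟩ := exists_of_rop (p := X.dim - 1) (by omega) hw₂
  have hlow : NumLowering ops X D w₀ := (numLowering_iff hS hn hD hw₀).2 hj₂
  have hKw : ∀ w, (X.prod X).IsCyc (X.dim - 1) w → W.corr (W.cl _ w) ∈ KS (ROp W X) (-1) :=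
    fun w hw => Submodule.subset_span (rop_corr (by omega) hw)
  obtain ⟨q, hq0, hq1, hq2⟩ := ineq hOA h W_hbd hLK (hKw _ hw₀) (hext _ hj₂)
  have htr : ∀ w, lefTrace W X D w = 2 * LinearMap.trace W.K (W.H X)
      (LinearMap.mulLeft W.K (W.cl X D) * W.corr (W.cl _ w)) := fun w => rfl
  refine ⟨weightSum W X - q, ⟨w₀, hlow⟩, ?_, by linarith, ?_⟩
  · intro w hw
    have hw' := (numLowering_iff (W := W) hS hn hD hw.1).1 hw
    rw [htr, indep (hKw _ hw.1) (hKw _ hw₀) (hext _ hw') (hext _ hj₂)]
    push_cast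
    rw [← hwt, ← hq1]
    ring
  · constructor
    · intro hB
      obtain ⟨Φ, hΦ, hLam⟩ := lefschetzB_iff_rop.1 hB
      have hfR := lower_of_lam hOA h W_hbd hLR hHL hΦ hLam hfv
      have hjf : ∀ v ∈ KS (ROp W X) (-1), LinearMap.trace W.K (W.H X)
          ((dc (LinearMap.mulLeft W.K (W.cl X D)) f -
            2 * LinearMap.mulLeft W.K (W.cl X D)) * v) = 0 := by
        intro v _
        rw [dc, t.ef, t.he, sub_self, zero_mul, map_zero]
      have h1 := indep (hKw _ hw₀) (Submodule.subset_span hfR) (hext _ hj₂) hjf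
      have h2 : 2 * LinearMap.trace W.K (W.H X) (LinearMap.mulLeft W.K (W.cl X D) * f) =
          LinearMap.trace W.K (W.H X) (wt h X.dim * wt h X.dim) := by
        rw [← trace_wt_comm hOA h hLK (Submodule.subset_span hfR) f, t.ef]
      rw [h1, h2, sub_self] at hq1
      have h3 : q = 0 := by exact_mod_cast hq1.symm
      rw [h3, sub_zero]
    · intro he
      have h3 : q = 0 := by linarith
      apply lefschetzB_of_inj hD hHL
      intro c hc
      obtain ⟨y, hy, hy'⟩ := inj_of_nilp hOA h W_hbd hLK hHL (hKw _ hw₀) (hq2 h3) c hc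
      exact ⟨y, mem_KS_iff.1 hy, hy'⟩

end Pool.Agent.R911.Num
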